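import Pool.Agent.H933.LL.Stm9
import Pool.Agent.H295.LL.Graph

/-!
# P_gloc: local cost near a graph of a Hölder function (helper686, after helper295)
-/

set_option autoImplicit false

open MeasureTheory Metric
open scoped Real ENNReal

namespace Pool.Agent.H686.LL

open Pool.Agent.H933.LL Pool.Agent.H295.LL.GraphAux

namespace GlocAux

/-- a chain from `B` to `z` of cost at most `K` -/
def ReachW (w : ℝ → ℝ) (E : Set ℂ) (B : Finset ℂ) (z : ℂ) (K : ℝ) : Prop := ∃ (N : ℕ) (c : ℕ → ℂ),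
  ∑ j ∈ Finset.range (N + 1), (1 + w (min 1 (infDist (c j) E / 2))) ≤ K ∧
    c 0 ∈ B ∧ c N = z ∧ ∀ j < N, ‖c (j + 1) - c j‖ ≤ infDist (c j) E / 4

theorem ReachW.base {w : ℝ → ℝ} {E : Set ℂ} {B : Finset ℂ} {b : ℂ} (hb : b ∈ B) :
    ReachW w E B b (1 + w (min 1 (infDist b E / 2))) :=
  ⟨0, fun _ => b, by simp, hb, rfl, fun j hj => absurd hj (Nat.not_lt_zero j)⟩

theorem ReachW.mono {w : ℝ → ℝ} {E : Set ℂ} {B : Finset ℂ} {z : ℂ} {K K' : ℝ}
    (h : ReachW w E B z K) (hK : K ≤ K') : ReachW w E B z K' := by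
  obtain ⟨N, c, h1, h2⟩ := h
  exact ⟨N, c, h1.trans hK, h2⟩

theorem ReachW.step {w : ℝ → ℝ} {E : Set ℂ} {B : Finset ℂ} {z z' : ℂ} {K : ℝ}
    (h : ReachW w E B z' K) (hz : ‖z - z'‖ ≤ infDist z' E / 4) :
    ReachW w E B z (K + (1 + w (min 1 (infDist z E / 2)))) := by
  obtain ⟨N, c, h1, h2, h3, h4⟩ := h
  obtain ⟨c', e1, e2⟩ : ∃ c' : ℕ → ℂ, (∀ j, j ≤ N → c' j = c j) ∧ c' (N + 1) = z :=
    ⟨fun j => if j ≤ N then c j else z, fun j hj => if_pos hj, if_neg (by omega)⟩
  refine ⟨N + 1, c', ?_, ?_, e2, ?_⟩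
  · rw [Finset.sum_range_succ, e2]
    refine add_le_add (le_trans (le_of_eq ?_) h1) le_rfl
    refine Finset.sum_congr rfl fun j hj => ?_
    rw [Finset.mem_range] at hj
    rw [e1 j (by omega)]
  · rw [e1 0 (Nat.zero_le N)]
    exact h2
  · intro j hj
    rw [e1 j (by omega)]
    by_cases hjN : j = N
    · subst hjN
      rw [e2, h3]
      exact hz
    · rw [e1 (j + 1) (by omega)]
      exact h4 j (by omega)

/-- the cost at a distance at least `e` -/
theorem cost_mono {η e d : ℝ} (hη : 0 < η) (he : 0 < e) (hd : e ≤ d) :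
    (min 1 (d / 2)) ^ (-η) ≤ (min 1 (e / 2)) ^ (-η) := by
  refine Real.rpow_le_rpow_of_nonpos (lt_min one_pos (by positivity)) ?_ (by linarith)
  exact min_le_min_left _ (by linarith)

/-- the base points -/
theorem exists_base' {E S : Set ℂ} {η e : ℝ} (hη : 0 < η) (hE : IsClosed E) (hEne : E.Nonempty)
    (hS : IsCompact S) (he : 0 < e) (hdS : ∀ z ∈ S, e ≤ infDist z E) :
    ∃ (B : Finset ℂ) (K : ℝ), (∀ b ∈ B, b ∉ E) ∧
      ∀ z ∈ S, ReachW (fun d => d ^ (-η)) E B z K := by
  obtain ⟨t, htS, htf, hcov⟩ := hS.finite_cover_balls (e := e / 4) (by positivity)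
  refine ⟨htf.toFinset, 2 * (1 + (min 1 (e / 2)) ^ (-η)), ?_, ?_⟩
  · intro b hb
    have hbS := htS ((Set.Finite.mem_toFinset htf).1 hb)
    rw [hE.notMem_iff_infDist_pos hEne]
    exact he.trans_le (hdS b hbS)
  · intro z hzS
    obtain ⟨b, hb, hzb⟩ := Set.mem_iUnion₂.1 (hcov hzS)
    have h4 : ReachW (fun d => d ^ (-η)) E htf.toFinset b (1 + (min 1 (infDist b E / 2)) ^ (-η)) :=
      ReachW.base ((Set.Finite.mem_toFinset htf).2 hb)
    have h5 : ‖z - b‖ ≤ infDist b E / 4 := by
      rw [← dist_eq_norm]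
      have h6 := hdS b (htS hb)
      have h7 := mem_ball.1 hzb
      linarith
    refine (h4.step h5).mono ?_
    have h6 := cost_mono hη he (hdS b (htS hb))
    have h7 := cost_mono hη he (hdS z hzS)
    linarith

/-- the cost at the height `t` -/
theorem cost_le' {L p η : ℝ} (hL : 0 ≤ L) (hp : 1 ≤ p) (hη : 0 < η) {t d : ℝ} (ht : 0 < t)
    (ht1 : t ≤ 1) (hd : dl L p t ≤ d) :
    1 + (min 1 (d / 2)) ^ (-η) ≤ (1 + 2 ^ η * (1 + L) ^ (p * η)) * t ^ (-(p * η)) := by
  have hdl : 0 < dl L p t := dl_pos hL ht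
  have h1 := cost_mono hη hdl hd
  have h2 : dl L p t ≤ 1 := (dl_le hL hp ht.le).trans (min_le_right _ _)
  have h3 : min 1 (dl L p t / 2) = dl L p t / 2 := min_eq_right (by linarith)
  have h4 : dl L p t = (t / (1 + L)) ^ p := by
    unfold dl
    rw [min_eq_left ht1]
  have h5 : (dl L p t / 2) ^ (-η) = 2 ^ η * (1 + L) ^ (p * η) * t ^ (-(p * η)) := by
    rw [h4, Real.div_rpow (by positivity) (by norm_num), ← Real.rpow_mul (by positivity),
      Real.div_rpow ht.le (by positivity), Real.rpow_neg (by norm_num : (0 : ℝ) ≤ 2),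
      mul_neg, Real.rpow_neg (by positivity : (0 : ℝ) ≤ 1 + L)]
    field_simp
  have h6 : 1 ≤ t ^ (-(p * η)) := Real.one_le_rpow_of_pos_of_le_one_of_nonpos ht ht1 (by
    have : 0 < p * η := by positivity
    linarith)
  rw [h3, h5] at h1
  linarith

/-- the potential decreases by the cost -/
theorem pot_le' {L p s η t : ℝ} (hL : 0 ≤ L) (hs : 0 < s) (hs1 : s ≤ 1)
    (hp : s = p * (1 + η) - 1) (hp1 : 1 ≤ p) (ht : 0 < t) (ht1 : t ≤ 1) :
    t ^ (-(p * η)) ≤ 8 * (1 + L) ^ p / s * (t ^ (-s) - (t + dl L p t / 4) ^ (-s)) := by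
  have hδ := dl_pos (p := p) hL ht
  have hδt : dl L p t ≤ t := (dl_le hL hp1 ht.le).trans (min_le_left _ _)
  have hδval : dl L p t = t ^ p / (1 + L) ^ p := by
    unfold dl
    rw [min_eq_left ht1, Real.div_rpow ht.le (by positivity)]
  set δ := dl L p t with hδdef
  set x := δ / (4 * t) with hx
  have hx0 : 0 < x := by positivity
  have hx1 : x ≤ 1 := by
    rw [hx, div_le_one (by positivity)]
    linarith
  have ht' : t + δ / 4 = t * (1 + x) := by
    rw [hx]
    field_simp
  -- Bernoulli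
  have h1 : (1 + x) ^ (-s) ≤ 1 - s * x / 2 := by
    have h2 : (1 + x) ^ (-s) = (1 + (-(x / (1 + x)))) ^ s := by
      rw [Real.rpow_neg (by positivity), ← Real.inv_rpow (by positivity)]
      congr 1
      field_simp
      ring
    have h3 : x / (1 + x) ≤ 1 := by
      rw [div_le_one (by positivity)]
      linarith
    have h4 := rpow_one_add_le_one_add_mul_self (s := -(x / (1 + x))) (by linarith) hs.le hs1
    rw [h2]
    refine h4.trans ?_
    have h5 : x / 2 ≤ x / (1 + x) := by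
      apply div_le_div_of_nonneg_left hx0.le (by positivity)
      linarith
    nlinarith
  have h6 : s * x / 2 * t ^ (-s) ≤ t ^ (-s) - (t + δ / 4) ^ (-s) := by
    rw [ht', Real.mul_rpow ht.le (by positivity)]
    have h7 : 0 < t ^ (-s) := by positivity
    nlinarith
  have h9 : t ^ (-(p * η)) = t ^ p * (t ^ (-s) * t⁻¹) := by
    have h10 : t ^ (-s) * t⁻¹ = t ^ (-(s + 1)) := by
      rw [neg_add, Real.rpow_add ht, Real.rpow_neg_one]
    rw [h10, ← Real.rpow_add ht]
    congr 1
    rw [hp]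
    ring
  calc t ^ (-(p * η)) = 8 * (1 + L) ^ p / s * (s * x / 2 * t ^ (-s)) := by
        rw [h9, hx, hδval]
        have : (0 : ℝ) < (1 + L) ^ p := by positivity
        field_simp
        ring
    _ ≤ _ := by
        have : 0 ≤ 8 * (1 + L) ^ p / s := by positivity
        exact mul_le_mul_of_nonneg_left h6 this

/-- the height above the graph -/
noncomputable def ht (φ : ℝ → ℝ) (u z : ℂ) : ℝ := |(u * z).im - φ (u * z).re|

section main

variable {φ : ℝ → ℝ} {L α R : ℝ} {u l : ℂ} {E : Set ℂ}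

theorem ht_cont (hc : Continuous φ) : Continuous (ht φ u) := by
  have h1 : Continuous fun z : ℂ => u * z := continuous_const.mul continuous_id
  exact continuous_abs.comp ((Complex.continuous_im.comp h1).sub
    (hc.comp (Complex.continuous_re.comp h1)))

theorem low (hL : 0 ≤ L) (hα : 0 < α) (hα1 : α ≤ 1)
    (hφ : ∀ s t : ℝ, |φ s - φ t| ≤ L * |s - t| ^ α) (hEne : E.Nonempty) (hu : ‖u‖ = 1)
    (hE : ∀ z ∈ ball l R, z ∈ E ↔ (u * z).im = φ (u * z).re)
    {z : ℂ} (hz : ‖z - l‖ ≤ 3 * R / 8) {t : ℝ} (ht0 : 0 ≤ t) (ht1 : t ≤ ht φ u z)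
    (ht2 : t ≤ R / 4) : dl L (1 / α) t ≤ infDist z E := by
  have hp1 : 1 ≤ 1 / α := by rw [le_div_iff₀ hα]; linarith
  have hp0 : 0 < 1 / α := by positivity
  rw [le_infDist hEne]
  intro y hy
  by_cases hyR : y ∈ ball l R
  · have h1 : u * y ∈ Gr φ := (hE y hyR).1 hy
    have h2 := dist_low hL hα hα1 hφ (u * z)
    have h3 : infDist (u * z) (Gr φ) ≤ dist (u * z) (u * y) := infDist_le_dist_of_mem h1
    have h4 : dist (u * z) (u * y) = dist z y := by
      rw [dist_eq_norm, dist_eq_norm, ← mul_sub, norm_mul, hu, one_mul]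
    have h5 := dl_mono (p := 1 / α) hL hp0 ht0 ht1
    unfold ht at h5
    exact h5.trans (h2.trans (h3.trans (le_of_eq h4)))
  · have h1 : R ≤ dist y l := by rwa [mem_ball, not_lt] at hyR
    have h2 : dist y l ≤ dist z y + dist z l := by
      have := dist_triangle y z l
      rwa [dist_comm y z] at this
    have h3 : dist z l ≤ 3 * R / 8 := by rw [dist_eq_norm]; exact hz
    have h4 := (dl_le hL hp1 ht0).trans (min_le_left _ _)
    linarith

/-- the chains -/
theorem chains' {η s : ℝ} (hL : 0 ≤ L) (hα : 0 < α) (hα1 : α ≤ 1) (hη : 0 < η)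
    (hs : s = 1 / α * (1 + η) - 1) (hs0 : 0 < s) (hs1 : s < 1)
    (hφ : ∀ s t : ℝ, |φ s - φ t| ≤ L * |s - t| ^ α) (hEc : IsClosed E) (hEne : E.Nonempty)
    (hu : ‖u‖ = 1) (hR : 0 < R) (hE : ∀ z ∈ ball l R, z ∈ E ↔ (u * z).im = φ (u * z).re) :
    Chains E Set.univ (ball l (R / 8)) (fun d => d ^ (-η)) (fun z => (min (ht φ u z) 1) ^ (-s)) := by
  have hc := cont hα hφ
  set p := 1 / α with hp
  have hp1 : 1 ≤ p := by rw [hp, le_div_iff₀ hα]; linarith
  have hp0 : 0 < p := by linarith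
  set T := min (1 / 2) (R / 8) with hT
  have hT0 : 0 < T := lt_min (by norm_num) (by positivity)
  have hT1 : T ≤ 1 / 2 := min_le_left _ _
  have hT2 : T ≤ R / 8 := min_le_right _ _
  set S : Set ℂ := closedBall l (3 * R / 8) ∩ {z : ℂ | T ≤ ht φ u z} with hS
  have hScomp : IsCompact S :=
    (isCompact_closedBall l _).inter_right (isClosed_le continuous_const (ht_cont hc))
  set e := dl L p T with he
  have he0 : 0 < e := dl_pos hL hT0
  have hdS : ∀ z ∈ S, e ≤ infDist z E := by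
    intro z hz
    have h1 : ‖z - l‖ ≤ 3 * R / 8 := by
      rw [← dist_eq_norm]
      exact hz.1
    exact low hL hα hα1 hφ hEne hu hE h1 hT0.le hz.2 (by linarith)
  obtain ⟨B, K, hB, hK⟩ := exists_base' hη hEc hEne hScomp he0 hdS
  set C₃ := 1 + 2 ^ η * (1 + L) ^ (p * η) with hC₃
  have hC₃0 : 0 ≤ C₃ := by positivity
  set C₄ := 8 * (1 + L) ^ p / s with hC₄
  have hC₄0 : 0 ≤ C₄ := by positivity
  have hu0 : u ≠ 0 := by
    intro h0
    rw [h0, norm_zero] at hu
    exact zero_ne_one hu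
  refine ⟨B, max K (C₃ * C₄), fun b hb => ⟨Set.mem_univ _, hB b hb⟩, fun z hz hzE => ?_⟩
  have hzl : ‖z - l‖ < R / 8 := by
    rw [← dist_eq_norm]
    exact hz
  have hzR : z ∈ ball l R := by
    rw [mem_ball, dist_eq_norm]
    linarith
  have hne : (u * z).im - φ (u * z).re ≠ 0 := fun h0 => hzE ((hE z hzR).2 (sub_eq_zero.1 h0))
  set h := ht φ u z with hh
  have hh0 : 0 < h := abs_pos.2 hne
  have hmax : 0 ≤ max K (C₃ * C₄) := (mul_nonneg hC₃0 hC₄0).trans (le_max_right _ _)
  have hg0 : 0 ≤ (min h 1) ^ (-s) := Real.rpow_nonneg (le_min hh0.le zero_le_one) _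
  suffices hsuff : ReachW (fun d => d ^ (-η)) E B z (max K (C₃ * C₄) * (1 + (min h 1) ^ (-s))) by
    obtain ⟨N, c, h3, h4, h5, h6⟩ := hsuff
    exact ⟨N, c, h3, h4, h5, h6⟩
  rcases le_or_gt T h with hTh | hTh
  · refine (hK z ⟨?_, hTh⟩).mono ?_
    · rw [mem_closedBall, dist_eq_norm]
      linarith
    · have h1 : K ≤ max K (C₃ * C₄) := le_max_left _ _
      have h2 : 0 ≤ max K (C₃ * C₄) * (min h 1) ^ (-s) := mul_nonneg hmax hg0
      linarith
  -- the vertical line
  obtain ⟨σ, hσ, hσh⟩ : ∃ σ : ℝ, |σ| = 1 ∧ (u * z).im - φ (u * z).re = σ * h := by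
    rcases lt_or_gt_of_ne hne with h1 | h1
    · exact ⟨-1, by simp, by rw [hh, ht, abs_of_neg h1]; ring⟩
    · exact ⟨1, by simp, by rw [hh, ht, abs_of_pos h1]; ring⟩
  let w : ℝ → ℂ := fun t => u⁻¹ * ⟨(u * z).re, φ (u * z).re + σ * t⟩
  have hwu : ∀ t, u * w t = ⟨(u * z).re, φ (u * z).re + σ * t⟩ := fun t =>
    mul_inv_cancel_left₀ hu0 _
  have hwh : ∀ t, 0 ≤ t → ht φ u (w t) = t := by
    intro t ht
    show |(u * w t).im - φ (u * w t).re| = t
    rw [hwu, add_sub_cancel_left, abs_mul, hσ, one_mul, abs_of_nonneg ht]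
  have hwz : w h = z := by
    have h1 : u * w h = u * z := by
      rw [hwu]
      apply Complex.ext
      · rfl
      · show φ (u * z).re + σ * h = (u * z).im
        rw [← hσh]
        ring
    exact mul_left_cancel₀ hu0 h1
  have hwd : ∀ t t', ‖w t - w t'‖ = |t - t'| := by
    intro t t'
    have h1 : ‖w t - w t'‖ = ‖u * w t - u * w t'‖ := by
      have h3 := norm_mul u (w t - w t')
      rw [hu, one_mul, mul_sub u (w t) (w t')] at h3
      exact h3.symm
    have h2 : u * w t - u * w t' = ((σ * (t - t') : ℝ) : ℂ) * Complex.I := by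
      rw [hwu, hwu]
      apply Complex.ext
      · simp
      · simp
        ring
    rw [h1, h2, norm_mul, Complex.norm_I, mul_one, Complex.norm_real, Real.norm_eq_abs, abs_mul,
      hσ, one_mul]
  have hwl : ∀ t, h ≤ t → t ≤ 2 * T → ‖w t - l‖ ≤ 3 * R / 8 := by
    intro t h1 h2
    have h3 : w t - l = (w t - w h) + (z - l) := by
      rw [hwz]
      ring
    rw [h3]
    refine (norm_add_le _ _).trans ?_
    rw [hwd, abs_of_nonneg (by linarith)]
    linarith
  have hwlow : ∀ t, h ≤ t → t ≤ 2 * T → dl L p t ≤ infDist (w t) E := by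
    intro t h1 h2
    have h3 : 0 ≤ t := hh0.le.trans h1
    exact low hL hα hα1 hφ hEne hu hE (hwl t h1 h2) h3 (hwh t h3).ge (by linarith)
  -- the induction
  have hδ0 : 0 < dl L p h := dl_pos hL hh0
  have hbase : ∀ t, h ≤ t → t ≤ 2 * T → T ≤ t →
      ReachW (fun d => d ^ (-η)) E B (w t) (K + C₃ * C₄ * t ^ (-s)) := by
    intro t h1 h2 h3
    have ht0 : 0 < t := hh0.trans_le h1
    refine (hK (w t) ⟨?_, ?_⟩).mono ?_
    · rw [mem_closedBall, dist_eq_norm]
      exact hwl t h1 h2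
    · show T ≤ ht φ u (w t)
      rw [hwh t ht0.le]
      exact h3
    · have : 0 ≤ C₃ * C₄ * t ^ (-s) := by positivity
      linarith
  have key : ∀ n : ℕ, ∀ t : ℝ, h ≤ t → t ≤ 2 * T → T - t ≤ n * (dl L p h / 4) →
      ReachW (fun d => d ^ (-η)) E B (w t) (K + C₃ * C₄ * t ^ (-s)) := by
    intro n
    induction n with
    | zero =>
      intro t h1 h2 h3
      refine hbase t h1 h2 ?_
      rw [Nat.cast_zero, zero_mul] at h3
      linarith
    | succ n ih =>
      intro t h1 h2 h3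
      have ht0 : 0 < t := hh0.trans_le h1
      rcases le_or_gt T t with h4 | h4
      · exact hbase t h1 h2 h4
      · have hδt : 0 < dl L p t := dl_pos hL ht0
        have hδt1 : dl L p t ≤ t := (dl_le hL hp1 ht0.le).trans (min_le_left _ _)
        have hmono : dl L p h ≤ dl L p t := dl_mono hL hp0 hh0.le h1
        have h5 := ih (t + dl L p t / 4) (by linarith) (by linarith) (by
          push_cast at h3
          linarith)
        have h6 : ‖w t - w (t + dl L p t / 4)‖ ≤ infDist (w (t + dl L p t / 4)) E / 4 := by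
          rw [hwd]
          have h7 : t - (t + dl L p t / 4) = -(dl L p t / 4) := by ring
          rw [h7, abs_neg, abs_of_pos (by positivity)]
          have h8 : dl L p t ≤ dl L p (t + dl L p t / 4) := dl_mono hL hp0 ht0.le (by linarith)
          have h9 := hwlow (t + dl L p t / 4) (by linarith) (by linarith)
          linarith
        refine (h5.step h6).mono ?_
        have h7 := cost_le' hL hp1 hη ht0 (by linarith) (hwlow t h1 (by linarith))
        have h8 := pot_le' (p := p) hL hs0 hs1.le hs hp1 ht0 (by linarith)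
        have h9 : C₃ * t ^ (-(p * η)) ≤
            C₃ * (C₄ * (t ^ (-s) - (t + dl L p t / 4) ^ (-s))) :=
          mul_le_mul_of_nonneg_left h8 hC₃0
        have h10 : C₃ * (C₄ * (t ^ (-s) - (t + dl L p t / 4) ^ (-s))) =
            C₃ * C₄ * t ^ (-s) - C₃ * C₄ * (t + dl L p t / 4) ^ (-s) := by ring
        linarith
  obtain ⟨n, hn⟩ := exists_nat_ge ((T - h) / (dl L p h / 4))
  have hfin := key n h le_rfl (by linarith) (by rwa [div_le_iff₀ (by positivity)] at hn)
  rw [hwz] at hfin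
  refine hfin.mono ?_
  have h1 : h ^ (-s) ≤ (min h 1) ^ (-s) :=
    Real.rpow_le_rpow_of_nonpos (lt_min hh0 one_pos) (min_le_left _ _) (by linarith)
  have h3 : K ≤ max K (C₃ * C₄) := le_max_left _ _
  have h4 : C₃ * C₄ ≤ max K (C₃ * C₄) := le_max_right _ _
  have h6 : C₃ * C₄ * h ^ (-s) ≤ max K (C₃ * C₄) * (min h 1) ^ (-s) :=
    mul_le_mul h4 h1 (by positivity) hmax
  linarith

end main

end GlocAux

open GlocAux in
/-- **P_gloc.** -/
theorem p_gloc : P_gloc := by
  intro φ L α η R u l E hα hα1 hη hη1 hφ hEc hEne hu hR hE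
  have hα0 : 0 < α := by linarith
  have hL : 0 ≤ L := by
    have h := (abs_nonneg _).trans (hφ 0 1)
    norm_num at h
    exact h
  have hc := cont hα0 hφ
  set p := 1 / α with hp
  have hp1 : 1 ≤ p := by rw [hp, le_div_iff₀ hα0]; linarith
  have hp0 : 0 < p := by linarith
  obtain ⟨s, hs⟩ : ∃ s : ℝ, s = p * (1 + η) - 1 := ⟨_, rfl⟩
  have hs0 : 0 < s := by
    rw [hs]
    nlinarith
  have hs1 : s < 1 := by
    have h1 : p * (1 + η) < p * (2 * α) := mul_lt_mul_of_pos_left (by linarith) hp0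
    have h2 : p * (2 * α) = 2 := by
      rw [hp]
      field_simp
    linarith
  set q := (1 + 1 / s) / 2 with hq
  have hq1 : 1 < q := by
    have : 1 < 1 / s := by rw [lt_div_iff₀ hs0]; linarith
    rw [hq]
    linarith
  have hsq : s * q < 1 := by
    have h1 : s * q = (s + 1) / 2 := by
      rw [hq]
      field_simp
    rw [h1]
    linarith
  let g : ℂ → ℝ := fun z => (min (ht φ u z) 1) ^ (-s)
  have hgdef : ∀ z, g z = (min (ht φ u z) 1) ^ (-s) := fun z => rfl
  have hht : ∀ z, 0 ≤ ht φ u z := fun z => abs_nonneg _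
  have hmin : ∀ z : ℂ, 0 ≤ min (ht φ u z) 1 := fun z => le_min (hht z) zero_le_one
  have hg0 : ∀ z, 0 ≤ g z := fun z => Real.rpow_nonneg (hmin z) _
  have hgm : Measurable g := by
    have h1 : Continuous fun z : ℂ => min (ht φ u z) 1 := (ht_cont hc).min continuous_const
    exact h1.measurable.pow_const _
  -- the rotation
  let U : Circle := ⟨u, mem_sphere_zero_iff_norm.2 hu⟩
  have hrot : ∀ z, rotation U z = u * z := fun z => rotation_apply U z
  have hmp : MeasurePreserving (rotation U) (volume : Measure ℂ) volume :=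
    (rotation U).measurePreserving
  have hgi : IntegrableOn (fun z : ℂ => g z ^ q) (ball l (R / 8)) := by
    refine ⟨(hgm.pow_const q).aestronglyMeasurable, ?_⟩
    rw [hasFiniteIntegral_iff_ofReal (Filter.Eventually.of_forall fun z =>
      Real.rpow_nonneg (hg0 z) _)]
    have h1 := lint_lt_top hc (fun t => ENNReal.ofReal ((min |t| 1) ^ (-(s * q))))
      (((continuous_abs.measurable).min measurable_const).pow_const _).ennreal_ofReal
      (one_dim (by positivity) hsq) (‖l‖ + R / 8)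
    rw [← hmp.setLIntegral_comp_preimage_emb
      (rotation U).toHomeomorph.measurableEmbedding] at h1
    refine lt_of_le_of_lt ?_ h1
    refine (lintegral_mono_set ?_).trans (le_of_eq (lintegral_congr fun z => ?_))
    · intro z hz
      show rotation U z ∈ ball (0 : ℂ) (‖l‖ + R / 8)
      rw [mem_ball, dist_eq_norm] at hz
      rw [hrot, mem_ball_zero_iff, norm_mul, hu, one_mul]
      calc ‖z‖ = ‖l + (z - l)‖ := by ring_nf
        _ ≤ ‖l‖ + ‖z - l‖ := norm_add_le _ _
        _ < ‖l‖ + R / 8 := by linarith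
    · show ENNReal.ofReal (g z ^ q) = ENNReal.ofReal
        ((min |(rotation U z).im - φ (rotation U z).re| 1) ^ (-(s * q)))
      rw [hgdef, ← Real.rpow_mul (hmin z), neg_mul, hrot]
      rfl
  refine ⟨R / 8, q, g, by positivity, hq1, ?_, hgm, hg0, hgi, ?_,
    chains' hL hα0 hα1 hη hs hs0 hs1 hφ hEc hEne hu hR hE⟩
  · have h1 : volume (rotation U ⁻¹' (Gr φ)) = 0 := by
      rw [hmp.measure_preimage_emb (rotation U).toHomeomorph.measurableEmbedding]
      exact gr_null hc
    refine measure_mono_null ?_ h1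
    rintro z ⟨hz1, hz2⟩
    have hzR : z ∈ ball l R := ball_subset_ball (by linarith) hz2
    show (rotation U z).im = φ (rotation U z).re
    rw [hrot]
    exact (hE z hzR).1 hz1
  · obtain ⟨C₁, hC₁⟩ : ∃ C₁, C₁ = 1 + p * Real.log (1 + L) + p / s := ⟨_, rfl⟩
    have hlog : 0 ≤ Real.log (1 + L) := Real.log_nonneg (by linarith)
    have hC₁0 : 0 ≤ C₁ := by rw [hC₁]; positivity
    obtain ⟨r', hr'⟩ : ∃ r' : ℝ, r' = min (R / 4) 1 := ⟨_, rfl⟩
    have hr'0 : 0 < r' := by rw [hr']; exact lt_min (by positivity) one_pos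
    have hr'1 : r' ≤ 1 := by rw [hr']; exact min_le_right _ _
    have hr'2 : r' ≤ R / 4 := by rw [hr']; exact min_le_left _ _
    have hC0 : 0 ≤ C₁ * r' ^ (-s) := by positivity
    have hbound : ∀ z ∈ ball l (R / 8),
        Real.posLog (infDist z E)⁻¹ ≤ C₁ * r' ^ (-s) * g z := by
      intro z hz
      have hzR : z ∈ ball l R := ball_subset_ball (by linarith) hz
      by_cases hzE : z ∈ E
      · rw [infDist_zero_of_mem hzE, inv_zero, Real.posLog_zero]
        exact mul_nonneg hC0 (hg0 z)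
      · have hne : (u * z).im - φ (u * z).re ≠ 0 := fun h0 =>
          hzE ((hE z hzR).2 (sub_eq_zero.1 h0))
        have hh0 : 0 < ht φ u z := abs_pos.2 hne
        have ht0 : 0 < min (ht φ u z) (R / 4) := lt_min hh0 (by positivity)
        have hzl : ‖z - l‖ ≤ 3 * R / 8 := by
          rw [← dist_eq_norm]
          have := mem_ball.1 hz
          linarith
        have h1 := cost_le hL hp1 hs0 ht0 (low hL hα0 hα1 hφ hEne hu hE hzl ht0.le
          (min_le_left _ _) (min_le_right _ _))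
        rw [← hC₁] at h1
        have hm0 : 0 < min (ht φ u z) 1 := lt_min hh0 one_pos
        have hm1 : min (ht φ u z) 1 ≤ 1 := min_le_right _ _
        have h2 : r' * min (ht φ u z) 1 ≤ min (min (ht φ u z) (R / 4)) 1 := by
          have h3 : r' * min (ht φ u z) 1 ≤ min (ht φ u z) 1 := mul_le_of_le_one_left hm0.le hr'1
          have h4 : r' * min (ht φ u z) 1 ≤ r' := mul_le_of_le_one_right hr'0.le hm1
          exact le_min (le_min (h3.trans (min_le_left _ _)) (h4.trans hr'2)) (h4.trans hr'1)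
        have h5 : (min (min (ht φ u z) (R / 4)) 1) ^ (-s) ≤ r' ^ (-s) * g z := by
          rw [hgdef, ← Real.mul_rpow hr'0.le hm0.le]
          exact Real.rpow_le_rpow_of_nonpos (by positivity) h2 (by linarith)
        have h6 : C₁ * (min (min (ht φ u z) (R / 4)) 1) ^ (-s) ≤ C₁ * (r' ^ (-s) * g z) :=
          mul_le_mul_of_nonneg_left h5 hC₁0
        linarith
    have hm : Measurable fun z : ℂ => (Real.posLog (infDist z E)⁻¹) ^ q := by
      refine Measurable.pow_const ?_ _
      exact Real.continuous_posLog.measurable.comp (continuous_infDist_pt _).measurable.inv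
    refine Integrable.mono' (hgi.const_mul ((C₁ * r' ^ (-s)) ^ q)) hm.aestronglyMeasurable
      (ae_restrict_of_forall_mem measurableSet_ball fun z hz => ?_)
    have h1 : 0 ≤ Real.posLog (infDist z E)⁻¹ := Real.posLog_nonneg
    show ‖(Real.posLog (infDist z E)⁻¹) ^ q‖ ≤ (C₁ * r' ^ (-s)) ^ q * g z ^ q
    rw [Real.norm_eq_abs, abs_of_nonneg (Real.rpow_nonneg h1 _), ← Real.mul_rpow hC0 (hg0 z)]
    exact Real.rpow_le_rpow h1 (hbound z hz) (by linarith)

end Pool.Agent.H686.LL
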